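import Pool.Agent.N375.Levy2
import Pool.Agent.N375.Levy3

set_option autoImplicit false

/-!
MP_25e24e_co, Q2: the least `n ≥ 2` for which there is an `n`-reptile with a hole is `2`
(the Levy dragon is a 2-reptile with a hole).
-/

namespace Pool.Agent.Results.MP_25e24e_co.LeastHole

open Pool.Agent.N375.Rep

/-- The least integer `n ≥ 2` for which there is an `n`-reptile with a hole is `2`. -/
theorem result :
    IsLeast {n : ℕ | 2 ≤ n ∧ ∃ X : Set ℂ, IsNReptile n X ∧ HasHole X} 2 :=
  ⟨⟨le_rfl, X, X_reptile, hole⟩, fun _ hn => hn.1⟩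

end Pool.Agent.Results.MP_25e24e_co.LeastHole
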